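import Mathlib
import Pool.Agent.Lib.helper18.Inertia

set_option autoImplicit false

open SimpleGraph Matrix

namespace Pool.Agent.Results.MP_0b3830_co.TwoK23

/-- Weighted distance matrix. -/
noncomputable def wdist {V : Type} (G : SimpleGraph V) (φ : Sym2 V → ℝ) : Matrix V V ℝ :=
  Matrix.of fun u v => sInf {x | ∃ p : G.Walk u v, p.IsPath ∧ x = (p.edges.map φ).sum}

/-- Number of positive eigenvalues, with multiplicity. -/
noncomputable def posEig {V : Type} [Fintype V] [DecidableEq V] (A : Matrix V V ℝ) : ℕ :=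
  (A.charpoly.roots.filter (0 < ·)).card

/-- `H` is a minor of `G`. -/
def IsMinor {V W : Type} (H : SimpleGraph W) (G : SimpleGraph V) : Prop :=
  ∃ B : W → Set V, (∀ a, (G.induce (B a)).Connected) ∧ (∀ a b, a ≠ b → Disjoint (B a) (B b)) ∧
    ∀ a b, H.Adj a b → ∃ x ∈ B a, ∃ y ∈ B b, G.Adj x y

/-- `K_{2,3,3}` with parts `{0,1}`, `{2,3,4}`, `{5,6,7}`. -/
def K233 : SimpleGraph (Fin 8) := SimpleGraph.fromRel fun a b => (a.val + 1) / 3 ≠ (b.val + 1) / 3

def dd : Fin 9 → Fin 9 → ℕ :=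
  ![![0, 2, 1, 1, 1, 2, 1, 1, 1], ![2, 0, 1, 1, 1, 4, 3, 3, 3], ![1, 1, 0, 2, 2, 3, 2, 2, 2],
    ![1, 1, 2, 0, 2, 3, 2, 2, 2], ![1, 1, 2, 2, 0, 3, 2, 2, 2], ![2, 4, 3, 3, 3, 0, 1, 1, 1],
    ![1, 3, 2, 2, 2, 1, 0, 2, 2], ![1, 3, 2, 2, 2, 1, 2, 0, 2], ![1, 3, 2, 2, 2, 1, 2, 2, 0]]

def G0 : SimpleGraph (Fin 9) := SimpleGraph.fromRel fun a b => dd a b = 1

instance : DecidableRel G0.Adj := fun a b => by unfold G0; rw [fromRel_adj]; infer_instance

instance : DecidableRel K233.Adj := fun a b => by unfold K233; rw [fromRel_adj]; infer_instance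

lemma dd_le {u v : Fin 9} (p : G0.Walk u v) : dd u v ≤ p.length := by
  have h : ∀ a b c : Fin 9, G0.Adj a b → dd a c ≤ dd b c + 1 := by decide +kernel
  have h0 : ∀ a, dd a a = 0 := by decide
  induction p with
  | nil => rw [h0]; exact Nat.zero_le _
  | cons hab p ih => rw [Walk.length_cons]; exact (h _ _ _ hab).trans (by omega)

lemma ex_walk (k : ℕ) : ∀ u v : Fin 9, dd u v = k → ∃ p : G0.Walk u v, p.length = k := by
  have h0 : ∀ a b, dd a b = 0 → a = b := by decide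
  have h1 : ∀ a c : Fin 9, dd a c ≠ 0 → ∃ b, G0.Adj a b ∧ dd b c + 1 = dd a c := by
    decide +kernel
  induction k with
  | zero => intro u v h; rw [h0 u v h]; exact ⟨Walk.nil, rfl⟩
  | succ k ih =>
    intro u v h
    obtain ⟨b, hb, e⟩ := h1 u v (by omega)
    obtain ⟨p, hp⟩ := ih b v (by omega)
    exact ⟨Walk.cons hb p, by rw [Walk.length_cons, hp]⟩

lemma wdist_eq : wdist G0 (fun _ => 1) = Matrix.of fun u v => (dd u v : ℝ) := by
  ext u v
  simp only [wdist, of_apply, List.map_const', List.sum_replicate, Walk.length_edges,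
    nsmul_eq_mul, mul_one]
  apply IsLeast.csInf_eq
  constructor
  · obtain ⟨p, hp⟩ := ex_walk _ u v rfl
    refine ⟨p.bypass, p.bypass_isPath, ?_⟩
    have := dd_le p.bypass
    have := p.length_bypass_le_length
    congr 1
    omega
  · rintro x ⟨p, _, rfl⟩
    exact_mod_cast dd_le p

lemma no_minor : ¬ IsMinor K233 G0 := by
  classical
  rintro ⟨B, _, h2, h3⟩
  let g : Fin 9 → Option (Fin 8) := fun x => if h : ∃ a, x ∈ B a then some h.choose else none
  have hg : ∀ a, ∀ x ∈ B a, g x = some a := by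
    intro a x hx
    have h : ∃ a, x ∈ B a := ⟨a, hx⟩
    simp only [g, dif_pos h]
    by_contra hc
    exact Set.disjoint_left.1 (h2 _ _ fun e => hc (congrArg some e)) h.choose_spec hx
  have hs : K233.edgeFinset.image (Sym2.map some) ⊆ G0.edgeFinset.image (Sym2.map g) := by
    intro e he
    obtain ⟨e', he', rfl⟩ := Finset.mem_image.1 he
    induction e' using Sym2.ind with
    | _ a b =>
      obtain ⟨x, hx, y, hy, hxy⟩ := h3 a b (by simpa using he')
      exact Finset.mem_image.2 ⟨s(x, y), by simpa using hxy, by simp [hg a x hx, hg b y hy]⟩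
  have h4 := (Finset.card_le_card hs).trans Finset.card_image_le
  rw [Finset.card_image_of_injective _ (Sym2.map.injective (Option.some_injective _))] at h4
  have e1 : K233.edgeFinset.card = 21 := by decide +kernel
  have e2 : G0.edgeFinset.card = 12 := by decide +kernel
  omega

theorem result : ∃ G : SimpleGraph (Fin 9), G.Connected ∧ ¬ IsMinor K233 G ∧
    ∃ φ : Sym2 (Fin 9) → ℝ, (∀ e, 0 < φ e) ∧ 2 < posEig (wdist G φ) := by
  refine ⟨G0, ⟨fun u v => ⟨(ex_walk _ u v rfl).choose⟩⟩, no_minor, fun _ => 1,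
    fun _ => one_pos, ?_⟩
  rw [wdist_eq]
  have hs : ∀ a b, dd a b = dd b a := by decide
  refine H18Inertia.le_card_pos (k := 3) (by ext i j; simp [hs i j])
    !![1, 0, -3; 1, -4, -2; 1, 3, 1; 1, 3, 1; 1, 3, 1; 1, 4, -2; 1, -3, 1; 1, -3, 1; 1, -3, 1]
    fun x hx => ?_
  have e : ∀ y : Fin 9 → ℝ, y ⬝ᵥ ((Matrix.of fun u v => (dd u v : ℝ)) *ᵥ y) =
      ∑ u, ∑ v, y u * dd u v * y v := fun y => by
    simp only [dotProduct, mulVec, of_apply, Finset.mul_sum, mul_assoc]
  rw [e]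
  simp [Fin.sum_univ_succ, dd, mulVec, dotProduct]
  have : x 0 ≠ 0 ∨ x 1 ≠ 0 ∨ x 2 ≠ 0 := by
    by_contra hc
    push Not at hc
    exact hx (by ext i; fin_cases i <;> simp [hc])
  rcases this with h | h | h <;>
    nlinarith [sq_pos_of_ne_zero h, sq_nonneg (x 0), sq_nonneg (x 1), sq_nonneg (x 2),
      sq_nonneg (6 * x 0 - x 2)]

end Pool.Agent.Results.MP_0b3830_co.TwoK23
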